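import Mathlib
import Pool.Agent.H76.PS.I8

/-!
# The parity of Bloch–Kato Selmer groups of conjugate self-dual representations of every dimension

Let `K = ℚ(√-d)`, where `d` is a prime number that is `7` modulo `16`, or the product of a prime
number that is `5` modulo `8` and of a prime number that is `3` modulo `8`; the prime `2` splits in
`K`, `v` and `v̄` are the places of `K` above `2` and `c` is a complex conjugation. Let `V` be a
continuous representation of `G_K`, of ANY dimension `n`, over a finite extension `F` of `ℚ_2`, which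
is unramified outside `2` and residually unipotent and has a symmetric pairing

`J(ρ(σ) x, ρ(c σ c) y) = χ(σ) J(x, y)`, `χ` the `2`-adic cyclotomic character,

that is, `V^∨(1) ≅ V^c` with the sign `+1`. Let `L ⊆ H¹(K_v, V)` be ANY subspace and let
`L^⊥ ⊆ H¹(K_v̄, V)` be its orthogonal complement for the pairing
`H¹(K_v, V) × H¹(K_v̄, V) → H²(K_v, F(1))` (the cup product of `x` and of the conjugate of `y`).

Theorem: the Selmer group of the classes of `H¹(K, V)` which are unramified outside `2`, are in `L` at
`v` and in `L^⊥` at `v̄`, has finite dimension at most `dim L` and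

`dim Sel_L(K, V) ≡ dim L` modulo `2`.

In particular the Selmer group is not zero if `dim L` is odd.

## Bloch–Kato Selmer groups and the sign conjecture

Let `π` be a regular algebraic cuspidal automorphic representation of `GL_n` over `K` with
`π^∨ = π^c |·|⁻¹` which is unramified at the places that do not divide `2` and whose `2`-adic
realization `V` is residually unipotent. By the theorem of Bellaïche and Chenevier on the sign the
pairing is symmetric. Let `L = H¹_f(K_v, V)`. By Bloch and Kato `L^⊥ = H¹_f(K_v̄, V)`, so the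
Selmer group is `H¹_f(K, V)` (at the other places `V` is unramified and `H¹_f` is the unramified part),
and `dim L` is the number `h` of the positive Hodge–Tate weights of `V` at `v`
(`H⁰(K_v, V) = 0` by purity). The sign of the functional equation is `ε(π) = (-1)^h`: the local
root number at the complex place is the product of the numbers `i ^ |2 p + 1|` for the Hodge types
`(p, -1 - p)`, and the product of the local root numbers at the finite places is `i` to the power
`∑ (2 p + 1)` by the product formula for the value of the central character at `√-d`. So the theorem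
gives the parity conjecture

`ε(π) = (-1) ^ dim H¹_f(K, V)`

for all these `π`, for every `n`, including the multiples of `4`, and so the statement of Q1:
`ε(π) = -1` implies `H¹_f(K, V) ≠ 0`. No hypothesis is made on `π` above `2`, on the Hodge–Tate
weights, on the endoscopic classification or on the image of the representation, and `V` need not be
automorphic, geometric or irreducible. Examples: the base changes to `K` of newforms `f` on
`Γ_0(2 ^ r)` and of their symmetric powers, and their twists by the algebraic Hecke characters of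
`2`-power conductor of `K` which are trivial on the idèles of `ℚ` and residually trivial.

These deductions use published theorems and are not part of the formal proof.

## The proof

Let `G` be the Galois group of the maximal `2`-extension of `K` unramified outside `2`. The local
group at `v` is dense in `G` and, by counting quadratic characters (Minkowski–Dirichlet units on the
global side, square classes of `2`-adic fields on the local side), every continuous representation of
the local group on a finite `2`-group extends to `G`: so `G` is the maximal pro-`2` quotient of the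
Galois group of `ℚ_2` and `H¹(K, V) = H¹(K_v, V)`. So the Selmer group is the kernel of the form
`B(x, y) = x ∪ y^c` on `L`, with values in `H²(G, F(1))`, which has dimension at most one. The
cohomology of `G` with coefficients in `ZMod 2` is computed from the Euler characteristic of the open
subgroups. The conjugation `c` acts trivially on `H²(G, F(1))`: the class modulo `4` of the
Kummer pairing of `-1` with a suitable unit is fixed and not trivial. So
`B(y, x) = y ∪ x^c = - x^c ∪ y = -(x ∪ y^c)^c = -B(x, y)` is alternating, and its kernel has the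
parity of `dim L`.

The formal proof is a joint work of the seats listed in `departures/helper76.md`.
-/

set_option autoImplicit false

namespace Pool.Agent.Results.MP_b4b3cb_nt.ParityEveryDimension

open Matrix IsLocalRing

/-- An algebraic closure of `ℚ`. -/
abbrev QBar : Type := AlgebraicClosure ℚ

/-- The field `ℚ(s)`. It is `ℚ(√-d)` if `s² = -d`. -/
noncomputable abbrev K (s : QBar) : IntermediateField ℚ QBar := IntermediateField.adjoin ℚ {s}

/-- The absolute Galois group of `ℚ(s)`. -/
def Gal (s : QBar) : Type := QBar ≃ₐ[K s] QBar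

/-- its group structure -/
noncomputable instance instGroupGal (s : QBar) : Group (Gal s) := AlgEquiv.aut (R := K s) (A₁ := QBar)

/-- its Krull topology -/
noncomputable instance instTopGal (s : QBar) : TopologicalSpace (Gal s) := krullTopology (K s) QBar

/-- The action of the Galois group on `ℚ̄`. -/
noncomputable def app {s : QBar} (σ : Gal s) (x : QBar) : QBar := (show QBar ≃ₐ[K s] QBar from σ) x

/-- The class of the numbers `d`: the primes `7 mod 16`, and the products of a prime `5 mod 8` and of
a prime `3 mod 8`. -/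
def InClass (d : ℕ) : Prop :=
  (d.Prime ∧ d % 16 = 7) ∨ ∃ p q : ℕ, p.Prime ∧ q.Prime ∧ p % 8 = 5 ∧ q % 8 = 3 ∧ d = p * q

/-- Embeddings of `ℚ̄` into the algebraic closure of `ℚ_p`. Each of them gives a place above `p` of all
subfields of `ℚ̄`. -/
abbrev Emb (p : ℕ) [Fact p.Prime] : Type := QBar →ₐ[ℚ] PadicAlgCl p

/-- The decomposition group of the place given by the embedding `ι` of `ℚ̄`. -/
def Dec {s : QBar} {p : ℕ} [Fact p.Prime] (ι : Emb p) : Subgroup (Gal s) where
  carrier := {σ | ∃ τ : PadicAlgCl p ≃ₐ[ℚ_[p]] PadicAlgCl p, ∀ x, τ (ι x) = ι (app σ x)}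
  mul_mem' := by
    rintro σ σ' ⟨τ, h⟩ ⟨τ', h'⟩
    refine ⟨τ * τ', fun x => ?_⟩
    rw [AlgEquiv.mul_apply, h', h]
    rfl
  one_mem' := ⟨1, fun _ => rfl⟩
  inv_mem' := by
    rintro σ ⟨τ, h⟩
    refine ⟨τ⁻¹, fun x => τ.injective ?_⟩
    rw [h]
    have h1 : app σ (app σ⁻¹ x) = x := AlgEquiv.apply_symm_apply (show QBar ≃ₐ[K s] QBar from σ) x
    rw [h1]
    exact AlgEquiv.apply_symm_apply τ (ι x)

/-- Its inertia group: the automorphisms which are trivial on the residue field. -/
def Inr {s : QBar} {p : ℕ} [Fact p.Prime] (ι : Emb p) : Set (Gal s) :=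
  {σ | ∃ τ : PadicAlgCl p ≃ₐ[ℚ_[p]] PadicAlgCl p, (∀ x, τ (ι x) = ι (app σ x)) ∧
    ∀ z : PadicAlgCl p, ‖z‖ ≤ 1 → ‖τ z - z‖ < 1}

/-- `c` is the complex conjugation of an embedding of `ℚ̄` into `ℂ`. -/
def IsConjugation (c : QBar ≃ₐ[ℚ] QBar) : Prop :=
  ∃ j : QBar →+* ℂ, ∀ x, j (c x) = (starRingEnd ℂ) (j x)

/-- `cj` is the conjugation by `c` on the Galois group: `cj σ = c σ c`. -/
def IsConjBy {s : QBar} (c : QBar ≃ₐ[ℚ] QBar) (cj : Gal s → Gal s) : Prop :=
  ∀ σ x, app (cj σ) x = c (app σ (c x))

/-- The `2`-adic cyclotomic character. -/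
noncomputable def cyc {s : QBar} (σ : Gal s) : ℤ_[2] :=
  (cyclotomicCharacter QBar 2 (show QBar ≃ₐ[K s] QBar from σ).toRingEquiv : ℤ_[2]ˣ)

section representations

variable {s : QBar} {A : Type} [CommRing A] {n : ℕ}

/-- The representation `ρ` is continuous, residually unipotent and unramified outside `2`. -/
structure Admissible [IsLocalRing A] [TopologicalSpace A] (ρ : Gal s →* GL (Fin n) A) : Prop where
  cont : ∀ i j, Continuous fun σ => (ρ σ : Matrix (Fin n) (Fin n) A) i j
  unipotent : ∀ σ, ∃ m : ℕ, ∀ i j,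
    (((ρ σ : Matrix (Fin n) (Fin n) A) - 1) ^ m) i j ∈ maximalIdeal A
  unramified : ∀ (p : ℕ) [Fact p.Prime] (ι : Emb p), p ≠ 2 →
    ∀ σ ∈ (Inr ι : Set (Gal s)), ρ σ = 1

variable (F : Type) [Field F] [Algebra A F]

/-- The matrix of `σ` on `V = F ^ n`. -/
noncomputable def mat (ρ : Gal s →* GL (Fin n) A) (σ : Gal s) : Matrix (Fin n) (Fin n) F :=
  (ρ σ : Matrix (Fin n) (Fin n) A).map (algebraMap A F)

/-- The cyclotomic character with values in `F`. -/
noncomputable def cycF [Algebra ℤ_[2] A] (σ : Gal s) : F :=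
  algebraMap A F (algebraMap ℤ_[2] A (cyc σ))

/-- `J` is a symmetric pairing of `V` and its conjugate with values in `F(1)`:
`J(σ x, (c σ c) y) = χ(σ) J(x, y)`. -/
structure Polarized [Algebra ℤ_[2] A] (cj : Gal s → Gal s) (ρ : Gal s →* GL (Fin n) A)
    (J : Matrix (Fin n) (Fin n) F) : Prop where
  symm : J.IsSymm
  inv : ∀ (σ : Gal s) (x y : Fin n → F),
    (mat F ρ σ *ᵥ x) ⬝ᵥ (J *ᵥ (mat F ρ (cj σ) *ᵥ y)) = cycF (A := A) F σ * (x ⬝ᵥ (J *ᵥ y))

/-- A function on a topological space with values in a finite product of copies of `F` is continuous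
if a nonzero multiple of it is continuous with values in the lattice given by `A`. -/
def Cont {G : Type} [TopologicalSpace G] [TopologicalSpace A] {k : ℕ} (f : G → Fin k → F) : Prop :=
  ∃ (a : A) (b : G → Fin k → A), algebraMap A F a ≠ 0 ∧ Continuous b ∧
    ∀ g i, algebraMap A F a * f g i = algebraMap A F (b g i)

/-- `z` is a continuous cocycle of the Galois group of `K` with values in `V`, unramified outside
`2`. -/
structure GlobalCocycle [TopologicalSpace A] (ρ : Gal s →* GL (Fin n) A) (z : Gal s → Fin n → F) :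
    Prop where
  mul : ∀ σ τ, z (σ * τ) = z σ + mat F ρ σ *ᵥ z τ
  cont : Cont (A := A) F z
  unramified : ∀ (p : ℕ) [Fact p.Prime] (ι : Emb p), p ≠ 2 →
    ∀ σ ∈ (Inr ι : Set (Gal s)), z σ = 0

/-- `l` is a continuous cocycle of the decomposition group with values in `V`. -/
structure LocalCocycle [TopologicalSpace A] (ρ : Gal s →* GL (Fin n) A) (ι : Emb 2)
    (l : Dec (s := s) ι → Fin n → F) : Prop where
  mul : ∀ δ δ' : Dec (s := s) ι, l (δ * δ') = l δ + mat F ρ δ *ᵥ l δ'
  cont : Cont (A := A) F l

/-- The classes of the cocycles `z 0`, …, `z (k - 1)` of the subgroup `D` are linearly independent in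
`H¹(D, V)`. -/
def Independent (ρ : Gal s →* GL (Fin n) A) (D : Subgroup (Gal s)) {k : ℕ}
    (z : Fin k → D → Fin n → F) : Prop :=
  ∀ a : Fin k → F, (∃ v : Fin n → F, ∀ δ : D, ∑ i, a i • z i δ = mat F ρ δ *ᵥ v - v) → a = 0

/-- The class of the cocycle `z` of the subgroup `D` is a linear combination of the classes of the
cocycles `l i`. -/
def InSpan (ρ : Gal s →* GL (Fin n) A) (D : Subgroup (Gal s)) {k : ℕ}
    (l : Fin k → D → Fin n → F) (z : D → Fin n → F) : Prop :=
  ∃ (a : Fin k → F) (v : Fin n → F), ∀ δ : D, z δ = ∑ i, a i • l i δ + (mat F ρ δ *ᵥ v - v)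

/-- The cup product in `H²(K_v, F(1))` of the class of `l` and of the conjugate of the class of `z` at
the place `v̄` is zero: the two-cocycle `(δ, δ') ↦ J(l(δ), (c δ c) z(c δ' c))` is the coboundary of a
continuous function `f` on the decomposition group of `v`. -/
def Orthogonal [TopologicalSpace A] [Algebra ℤ_[2] A] (cj : Gal s → Gal s)
    (ρ : Gal s →* GL (Fin n) A) (J : Matrix (Fin n) (Fin n) F) (ι : Emb 2)
    (l : Dec (s := s) ι → Fin n → F) (z : Gal s → Fin n → F) : Prop :=
  ∃ f : Dec (s := s) ι → F, Cont (A := A) F (fun δ (_ : Fin 1) => f δ) ∧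
    ∀ δ δ' : Dec (s := s) ι, l δ ⬝ᵥ (J *ᵥ (mat F ρ (cj δ) *ᵥ z (cj δ'))) =
      f δ + cycF (A := A) F (δ : Gal s) * f δ' - f (δ * δ')

/-- **The Selmer group.** The class of `z` is unramified outside `2`, it is in `L` at `v`, and it is
in the orthogonal complement of `L` at the conjugate place `v̄`; here `L` is the subspace of
`H¹(K_v, V)` spanned by the classes of the `l i`. -/
structure InSelmer [TopologicalSpace A] [Algebra ℤ_[2] A] (cj : Gal s → Gal s)
    (ρ : Gal s →* GL (Fin n) A) (J : Matrix (Fin n) (Fin n) F) (ι : Emb 2) {k : ℕ}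
    (l : Fin k → Dec (s := s) ι → Fin n → F) (z : Gal s → Fin n → F) : Prop where
  global : GlobalCocycle F ρ z
  local_v : InSpan F ρ (Dec ι) l (fun δ => z δ)
  local_conj : ∀ i, Orthogonal F cj ρ J ι (l i) z

end representations

/-! ### The proof -/

section proof

open Pool.Agent.H76.PS

variable {s : QBar}

/-- The conjugation on the Galois group exists. -/
theorem exists_conjBy {d : ℕ} (hs : s ^ 2 = -(d : QBar)) {c : QBar ≃ₐ[ℚ] QBar}
    (hc : IsConjugation c) : ∃ cj : Gal s → Gal s, IsConjBy c cj := by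
  have hinv : ∀ x, c (c x) = x := fun x => IsConj.invol hc x
  have hcs : c s ∈ K s := by
    have h1 : (c s - s) * (c s + s) = 0 := by
      have h2 : (c s) ^ 2 = -(d : QBar) := by rw [← map_pow, hs, map_neg, map_natCast]
      linear_combination h2 - hs
    have hsK : s ∈ K s := IntermediateField.mem_adjoin_simple_self ℚ s
    rcases mul_eq_zero.1 h1 with h | h
    · rw [sub_eq_zero.1 h]
      exact hsK
    · rw [eq_neg_of_add_eq_zero_left h]
      exact neg_mem hsK
  have hK : ∀ x ∈ K s, c x ∈ K s := by
    have h1 : K s ≤ (K s).comap (c : QBar →ₐ[ℚ] QBar) := by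
      rw [IntermediateField.adjoin_le_iff, Set.singleton_subset_iff]
      exact hcs
    exact fun x hx => h1 hx
  refine ⟨fun σ => show QBar ≃ₐ[K s] QBar from
    AlgEquiv.ofRingEquiv (f := (c.toRingEquiv.trans
      (show QBar ≃ₐ[K s] QBar from σ).toRingEquiv).trans c.toRingEquiv) fun r => ?_, fun σ x => rfl⟩
  have h1 : (show QBar ≃ₐ[K s] QBar from σ) (c (r : QBar)) = c (r : QBar) :=
    (show QBar ≃ₐ[K s] QBar from σ).commutes ⟨c (r : QBar), hK _ r.2⟩
  show c ((show QBar ≃ₐ[K s] QBar from σ) (c (r : QBar))) = (r : QBar)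
  rw [h1, hinv]

lemma cyc_isCyc : IsCyc (s := s) (fun σ => cyc (s := s) σ) := by
  intro σ m ζ hζ
  exact cyclotomicCharacter.spec 2 (n := m) (show QBar ≃ₐ[K s] QBar from σ).toRingEquiv ζ hζ

lemma mat_id {A : Type} [CommRing A] {F : Type} [Field F] [Algebra A F] [Algebra ℤ_[2] A] {n : ℕ}
    {cj : Gal s → Gal s} {ρ : Gal s →* GL (Fin n) A} {J : Matrix (Fin n) (Fin n) F}
    (hJ : Polarized F cj ρ J) (σ : Gal s) :
    (mat F ρ σ)ᵀ * J * mat F ρ (cj σ) = cycF (A := A) F σ • J := by
  ext i j
  have h := hJ.inv σ (Pi.single i 1) (Pi.single j 1)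
  rw [dot_trF, Matrix.mulVec_mulVec, Matrix.mulVec_mulVec, single_one_dotProduct,
    single_one_dotProduct, Matrix.mulVec_single_one, Matrix.mulVec_single_one] at h
  exact h

end proof

/-- **Parity of Selmer groups.** Let `K = ℚ(√-d)`, `d` in the class, `c` a complex conjugation and
`V = F ^ n` a representation of `G_K`, unramified outside `2` and residually unipotent, with a
symmetric pairing `J : V × V^c → F(1)`. Let `ι` give the place `v` above `2` and let `l 0`, …,
`l (k - 1)` be a basis of a subspace `L` of `H¹(K_v, V)`. Then the Selmer group of the classes that are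
unramified outside `2`, in `L` at `v` and in the orthogonal complement of `L` at `v̄` has a basis of
`r ≤ k` classes, and `k - r` is even. -/
theorem result : ∀ d : ℕ, InClass d → ∀ s : QBar, s ^ 2 = -(d : QBar) →
    ∀ c : QBar ≃ₐ[ℚ] QBar, IsConjugation c → ∀ cj : Gal s → Gal s, IsConjBy c cj →
    ∀ (A : Type) [CommRing A] [IsDomain A] [IsLocalRing A] [TopologicalSpace A]
      [IsTopologicalRing A] [Algebra ℤ_[2] A] [Module.Finite ℤ_[2] A] [Module.Free ℤ_[2] A],
      IsAdic (maximalIdeal A) →
    ∀ (F : Type) [Field F] [Algebra A F] [IsFractionRing A F] (n : ℕ) (ρ : Gal s →* GL (Fin n) A),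
      Admissible ρ → ∀ J : Matrix (Fin n) (Fin n) F, Polarized F cj ρ J →
    ∀ (ι : Emb 2) (k : ℕ) (l : Fin k → Dec (s := s) ι → Fin n → F),
      (∀ i, LocalCocycle F ρ ι (l i)) → Independent F ρ (Dec ι) l →
      ∃ r : ℕ, r ≤ k ∧ Even (k - r) ∧ ∃ z : Fin r → Gal s → Fin n → F,
        (∀ t, InSelmer F cj ρ J ι l (z t)) ∧ Independent F ρ ⊤ (fun t σ => z t σ) ∧
        ∀ y, InSelmer F cj ρ J ι l y → InSpan F ρ ⊤ (fun t σ => z t σ) (fun σ => y σ) := by
  intro d hd s hs c hc cj hcj A _ _ _ _ _ _ _ _ hA F _ _ _ n ρ hρ J hJ ι k l hl hind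
  have hnoeth : IsNoetherianRing A := IsNoetherianRing.of_finite ℤ_[2] A
  have hselmer : ∀ y, InSelmer F cj ρ J ι l y ↔
      Pool.Agent.H76.PS.Sel J ρ (fun σ => cyc (s := s) σ) cj ι l y := by
    intro y
    constructor
    · rintro ⟨⟨h1, h2, h3⟩, h4, h5⟩
      refine ⟨⟨h1, h2, h3⟩, h4, fun i => ?_⟩
      obtain ⟨f, ⟨a, b, ha, hb, hab⟩, hf⟩ := h5 i
      exact ⟨f, ⟨a, fun g => b g 0, ha, (continuous_apply 0).comp hb, fun g => hab g 0⟩, hf⟩
    · rintro ⟨⟨h1, h2, h3⟩, h4, h5⟩
      refine ⟨⟨h1, h2, h3⟩, h4, fun i => ?_⟩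
      obtain ⟨f, ⟨a, b, ha, hb, hab⟩, hf⟩ := h5 i
      exact ⟨f, ⟨a, fun g _ => b g, ha, continuous_pi fun _ => hb, fun g _ => hab g⟩, hf⟩
  obtain ⟨r, hr, hev, z, hz, hzi, hzs⟩ := Pool.Agent.H76.PS.parity' (s := s) hs hd
    (χ := fun σ => cyc (s := s) σ) cyc_isCyc hc (cj := cj) hcj hA
    (ρ := ρ) ⟨hρ.cont, hρ.unipotent, hρ.unramified⟩ hJ.symm (mat_id hJ) ι l
    (fun i => ⟨(hl i).mul, (hl i).cont⟩) hind
  refine ⟨r, hr, hev, z, fun t => (hselmer _).2 (hz t), fun a ⟨v, hv⟩ =>
    hzi a ⟨v, fun σ => hv ⟨σ, trivial⟩⟩, fun y hy => ?_⟩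
  obtain ⟨a, v, h⟩ := hzs y ((hselmer y).1 hy)
  exact ⟨a, v, fun σ => h (σ : Gal s)⟩

end Pool.Agent.Results.MP_b4b3cb_nt.ParityEveryDimension
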